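import Pool.Agent.Run7.h775.Doyle.Defs

/-!
# Variation of the angle
-/

namespace Run7.h775.Doyle

open Real intervalIntegral

lemma angleAt_eq {r s t : ℝ} (hr : 0 < r) (hs : 0 < s) (ht : 0 < t) :
    angleAt r s t = 2 * arctan (sqrt (r * s * t / (r + s + t)) / r) := by
  set q := sqrt (r * s * t / (r + s + t)) / r with hq
  have hq0 : 0 < q := by positivity
  have hq2 : q ^ 2 = s * t / (r * (r + s + t)) := by
    rw [hq, div_pow, sq_sqrt (by positivity)]
    field_simp
  have h1 : cos (2 * arctan q) = (1 - q ^ 2) / (1 + q ^ 2) := by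
    rw [cos_two_mul, cos_sq_arctan]
    field_simp
    ring
  have h2 : ((r + s) ^ 2 + (r + t) ^ 2 - (s + t) ^ 2) / (2 * (r + s) * (r + t)) =
      (1 - q ^ 2) / (1 + q ^ 2) := by
    rw [hq2]
    have : (1 + s * t / (r * (r + s + t))) = (r + s) * (r + t) / (r * (r + s + t)) := by
      field_simp; ring
    rw [this]
    field_simp
    ring
  unfold angleAt
  rw [h2, ← h1, arccos_cos]
  · have := arctan_pos.mpr hq0
    linarith
  · have := arctan_lt_pi_div_two q
    linarith

/-- the conductance kernel -/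
noncomputable def kk (a b c : ℝ) : ℝ := sqrt (a * b * c / (a + b + c)) / (a + b)

lemma kk_symm (a b c : ℝ) : kk a b c = kk b a c := by
  unfold kk
  rw [mul_comm a b, add_comm a b]

lemma kk_pos {a b c : ℝ} (ha : 0 < a) (hb : 0 < b) (hc : 0 < c) : 0 < kk a b c := by
  unfold kk; positivity

lemma kk_le {a b c : ℝ} (ha : 0 < a) (hb : 0 < b) (hc : 0 < c) : kk a b c ≤ 1 / 2 := by
  unfold kk
  rw [div_le_iff₀ (by positivity)]
  have h1 : a * b * c / (a + b + c) ≤ (1 / 2 * (a + b)) ^ 2 := by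
    rw [div_le_iff₀ (by positivity)]
    nlinarith [mul_pos ha hb, mul_pos (mul_pos ha hb) hc, sq_nonneg (a - b),
      mul_nonneg hc.le (sq_nonneg (a - b)), mul_nonneg (add_pos ha hb).le (sq_nonneg (a - b)),
      mul_pos (mul_pos ha hb) (add_pos ha hb)]
  calc sqrt (a * b * c / (a + b + c)) ≤ sqrt ((1 / 2 * (a + b)) ^ 2) := sqrt_le_sqrt h1
    _ = 1 / 2 * (a + b) := sqrt_sq (by positivity)

lemma hasDerivAt_angle (x1 x2 x3 h1 h2 h3 σ : ℝ) :
    HasDerivAt (fun σ => angleAt (exp (x1 + σ * h1)) (exp (x2 + σ * h2)) (exp (x3 + σ * h3)))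
      (kk (exp (x1 + σ * h1)) (exp (x2 + σ * h2)) (exp (x3 + σ * h3)) * (h2 - h1) +
        kk (exp (x1 + σ * h1)) (exp (x3 + σ * h3)) (exp (x2 + σ * h2)) * (h3 - h1)) σ := by
  have d1 : ∀ x h : ℝ, HasDerivAt (fun σ : ℝ => x + σ * h) h σ := by
    intro x h
    simpa using ((hasDerivAt_id σ).mul_const h).const_add x
  have e1 : ∀ x h : ℝ, HasDerivAt (fun σ : ℝ => exp (x + σ * h)) (exp (x + σ * h) * h) σ :=
    fun x h => (d1 x h).exp
  set r1 := exp (x1 + σ * h1) with hr1
  set r2 := exp (x2 + σ * h2) with hr2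
  set r3 := exp (x3 + σ * h3) with hr3
  have p1 : 0 < r1 := exp_pos _
  have p2 : 0 < r2 := exp_pos _
  have p3 : 0 < r3 := exp_pos _
  -- the logarithm of the square of the tangent of the half angle
  let L : ℝ → ℝ := fun σ => (x2 + σ * h2) + (x3 + σ * h3) - (x1 + σ * h1) -
    log (exp (x1 + σ * h1) + exp (x2 + σ * h2) + exp (x3 + σ * h3))
  have dS : HasDerivAt (fun σ : ℝ => exp (x1 + σ * h1) + exp (x2 + σ * h2) + exp (x3 + σ * h3))
      (r1 * h1 + r2 * h2 + r3 * h3) σ := ((e1 x1 h1).add (e1 x2 h2)).add (e1 x3 h3)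
  have dL : HasDerivAt L (h2 + h3 - h1 - (r1 * h1 + r2 * h2 + r3 * h3) / (r1 + r2 + r3)) σ := by
    apply HasDerivAt.sub
    · exact ((d1 x2 h2).add (d1 x3 h3)).sub (d1 x1 h1)
    · exact dS.log (by positivity)
  have hfun : (fun σ => angleAt (exp (x1 + σ * h1)) (exp (x2 + σ * h2)) (exp (x3 + σ * h3))) =
      fun σ => 2 * arctan (exp (L σ / 2)) := by
    funext τ
    rw [angleAt_eq (exp_pos _) (exp_pos _) (exp_pos _)]
    congr 2
    set a := exp (x1 + τ * h1) with ha
    set b := exp (x2 + τ * h2) with hb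
    set c := exp (x3 + τ * h3) with hc
    have pa : 0 < a := exp_pos _
    have pb : 0 < b := exp_pos _
    have pc : 0 < c := exp_pos _
    have hL : exp (L τ) = b * c / a / (a + b + c) := by
      simp only [L]
      rw [exp_sub, exp_sub, exp_add, exp_log (by positivity)]
    rw [exp_half, hL]
    have : b * c / a / (a + b + c) = (a * b * c / (a + b + c)) / a ^ 2 := by
      field_simp
    rw [this]
    have h5 : sqrt (a * b * c / (a + b + c) / a ^ 2) = sqrt (a * b * c / (a + b + c)) / a := by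
      rw [sqrt_div (by positivity) (a ^ 2), sqrt_sq pa.le]
    rw [h5]
  rw [hfun]
  have hq : exp (L σ / 2) = sqrt (r1 * r2 * r3 / (r1 + r2 + r3)) / r1 := by
    have h6 : angleAt r1 r2 r3 = 2 * arctan (exp (L σ / 2)) := congrFun hfun σ
    rw [angleAt_eq p1 p2 p3] at h6
    have h7 := mul_left_cancel₀ (two_ne_zero) h6
    exact (arctan_injective h7).symm
  have dA : HasDerivAt (fun σ => 2 * arctan (exp (L σ / 2)))
      (2 * (1 / (1 + exp (L σ / 2) ^ 2) * (exp (L σ / 2) *
        ((h2 + h3 - h1 - (r1 * h1 + r2 * h2 + r3 * h3) / (r1 + r2 + r3)) / 2)))) σ :=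
    (((dL.div_const 2).exp).arctan).const_mul 2
  convert dA using 1
  rw [hq]
  unfold kk
  have e13 : r1 * r3 * r2 / (r1 + r3 + r2) = r1 * r2 * r3 / (r1 + r2 + r3) := by
    rw [mul_right_comm, add_right_comm]
  rw [e13]
  set ρ := sqrt (r1 * r2 * r3 / (r1 + r2 + r3)) with hρ
  have hρ2 : ρ ^ 2 = r1 * r2 * r3 / (r1 + r2 + r3) := sq_sqrt (by positivity)
  have hden : 1 + (ρ / r1) ^ 2 = (r1 + r2) * (r1 + r3) / (r1 * (r1 + r2 + r3)) := by
    rw [div_pow, hρ2]
    field_simp
    ring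
  rw [hden]
  field_simp
  ring

/-- the averaged conductance of the pair `(a, b)` in the face `⟨a, b, c⟩` -/
noncomputable def KK (x h : ℤ × ℤ → ℝ) (a b c : ℤ × ℤ) : ℝ :=
  ∫ σ in (0 : ℝ)..1, kk (exp (x a + σ * h a)) (exp (x b + σ * h b)) (exp (x c + σ * h c))

lemma continuous_kk (x1 x2 x3 h1 h2 h3 : ℝ) : Continuous fun σ : ℝ =>
    kk (exp (x1 + σ * h1)) (exp (x2 + σ * h2)) (exp (x3 + σ * h3)) := by
  unfold kk
  apply Continuous.div
  · apply Continuous.sqrt
    apply Continuous.div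
    · fun_prop
    · fun_prop
    · intro σ; positivity
  · fun_prop
  · intro σ; positivity

lemma KK_symm (x h : ℤ × ℤ → ℝ) (a b c : ℤ × ℤ) : KK x h a b c = KK x h b a c := by
  unfold KK
  congr 1
  funext σ
  exact kk_symm _ _ _

lemma KK_pos (x h : ℤ × ℤ → ℝ) (a b c : ℤ × ℤ) : 0 < KK x h a b c := by
  unfold KK
  apply intervalIntegral_pos_of_pos_on
  · exact (continuous_kk _ _ _ _ _ _).intervalIntegrable _ _
  · intro σ _
    exact kk_pos (exp_pos _) (exp_pos _) (exp_pos _)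
  · norm_num

lemma KK_le (x h : ℤ × ℤ → ℝ) (a b c : ℤ × ℤ) : KK x h a b c ≤ 1 / 2 := by
  unfold KK
  calc ∫ σ in (0 : ℝ)..1, kk (exp (x a + σ * h a)) (exp (x b + σ * h b)) (exp (x c + σ * h c))
      ≤ ∫ _σ in (0 : ℝ)..1, (1 / 2 : ℝ) := by
        apply integral_mono (by norm_num)
        · exact (continuous_kk _ _ _ _ _ _).intervalIntegrable _ _
        · exact continuous_const.intervalIntegrable _ _
        · intro σ
          exact kk_le (exp_pos _) (exp_pos _) (exp_pos _)
    _ = 1 / 2 := by simp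

lemma angle_diff (x h : ℤ × ℤ → ℝ) (a b c : ℤ × ℤ) :
    angleAt (exp (x a + h a)) (exp (x b + h b)) (exp (x c + h c)) -
      angleAt (exp (x a)) (exp (x b)) (exp (x c)) =
      KK x h a b c * (h b - h a) + KK x h a c b * (h c - h a) := by
  have key := integral_eq_sub_of_hasDerivAt
    (fun σ (_ : σ ∈ Set.uIcc (0 : ℝ) 1) =>
      hasDerivAt_angle (x a) (x b) (x c) (h a) (h b) (h c) σ)
    (by
      apply Continuous.intervalIntegrable
      exact ((continuous_kk _ _ _ _ _ _).mul continuous_const).add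
        ((continuous_kk _ _ _ _ _ _).mul continuous_const))
  simp only [one_mul, zero_mul, add_zero] at key
  rw [← key, integral_add, integral_mul_const, integral_mul_const]
  · rfl
  · exact ((continuous_kk _ _ _ _ _ _).mul continuous_const).intervalIntegrable _ _
  · exact ((continuous_kk _ _ _ _ _ _).mul continuous_const).intervalIntegrable _ _

end Run7.h775.Doyle
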