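import Mathlib

/-!
# Circle packings of the hexagonal complex: definitions

The vertex `v_{n,m}` of the hexagonal complex `H` is the pair `(n, m) : ℤ × ℤ`; it stands for the
lattice point `n + m ω` with `ω = exp (i π / 3)`.
-/

namespace Run7.h775.Doyle

/-- The six lattice vectors of length one, in counterclockwise order:
`1, ω, ω² = ω - 1, -1, -ω, 1 - ω`.  The six neighbours of `v` are `v + nb j`, and the six faces
at `v` are `⟨v, v + nb j, v + nb (j + 1)⟩`, `j : Fin 6` (cyclically). -/
def nb : Fin 6 → ℤ × ℤ := ![(1, 0), (0, 1), (-1, 1), (-1, 0), (0, -1), (1, -1)]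

/-- The angle opposite to the side `s + t` in the Euclidean triangle with sides
`r + s`, `r + t`, `s + t` (law of cosines). -/
noncomputable def angleAt (r s t : ℝ) : ℝ :=
  Real.arccos (((r + s) ^ 2 + (r + t) ^ 2 - (s + t) ^ 2) / (2 * (r + s) * (r + t)))

/-- The angle sum `θ_R(v)`. -/
noncomputable def angleSum (R : ℤ × ℤ → ℝ) (v : ℤ × ℤ) : ℝ :=
  ∑ j : Fin 6, angleAt (R v) (R (v + nb j)) (R (v + nb (j + 1)))

/-- `R` is a packing label for `H`: positive, with angle sum `2 π` at every vertex. -/
def IsPackingLabel (R : ℤ × ℤ → ℝ) : Prop :=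
  (∀ v, 0 < R v) ∧ ∀ v, angleSum R v = 2 * Real.pi

/-- The circles with centres `z v` and radii `R v` form a circle packing for `H` with label `R`:
circles of adjacent vertices are externally tangent and every face is positively oriented. -/
def IsCirclePacking (R : ℤ × ℤ → ℝ) (z : ℤ × ℤ → ℂ) : Prop :=
  (∀ v j, dist (z v) (z (v + nb j)) = R v + R (v + nb j)) ∧
    ∀ v j, 0 < ((starRingEnd ℂ) (z (v + nb j) - z v) * (z (v + nb (j + 1)) - z v)).im

/-- The flower at `v`: the vertex `v` and its six neighbours. -/
def flower (v : ℤ × ℤ) : Set (ℤ × ℤ) := insert v (Set.range fun j => v + nb j)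

/-- Local univalence: for every `v`, the seven circles of the flower at `v` have pairwise
disjoint interiors. -/
def LocallyUnivalent (R : ℤ × ℤ → ℝ) (z : ℤ × ℤ → ℂ) : Prop :=
  ∀ v, (flower v).PairwiseDisjoint fun u => Metric.ball (z u) (R u)

end Run7.h775.Doyle
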