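import Mathlib

/-!
# A Liouville theorem on the triangular lattice

Bounded functions which are harmonic for symmetric, positive, bounded conductances
on the edges of the triangular lattice are constant (the network is recurrent).
The proof uses a logarithmic cut-off and a Caccioppoli inequality.
-/

namespace Run7.h775.Doyle

open Finset Filter Topology

/-- sup-norm on `ℤ × ℤ` as a natural number -/
def nrm (v : ℤ × ℤ) : ℕ := max v.1.natAbs v.2.natAbs

/-- partial harmonic sum -/
noncomputable def HH (N : ℕ) : ℝ := ∑ i ∈ range N, (1 : ℝ) / (i + 1)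

/-- logarithmic cut-off -/
noncomputable def cut (N : ℕ) (v : ℤ × ℤ) : ℝ :=
  (∑ i ∈ Ico (nrm v) N, (1 : ℝ) / (i + 1)) / HH N

/-- three directions of the triangular lattice -/
def d3 : Fin 3 → ℤ × ℤ := ![(1, 0), (0, 1), (-1, 1)]

lemma HH_pos {N : ℕ} (hN : 0 < N) : 0 < HH N := by
  unfold HH
  apply Finset.sum_pos
  · intro i _; positivity
  · exact ⟨0, by simpa using hN⟩

lemma cut_zero {N : ℕ} (hN : 0 < N) : cut N 0 = 1 := by
  have h := HH_pos hN
  unfold cut
  have : nrm 0 = 0 := by simp [nrm]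
  rw [this]
  have h2 : (∑ i ∈ Ico 0 N, (1 : ℝ) / (i + 1)) = HH N := by
    unfold HH; rw [Nat.Ico_zero_eq_range]
  rw [h2]
  exact div_self h.ne'

lemma cut_out {N : ℕ} {v : ℤ × ℤ} (h : N ≤ nrm v) : cut N v = 0 := by
  unfold cut
  rw [Finset.Ico_eq_empty_of_le h]
  simp

lemma cut_succ {N k : ℕ} {v u : ℤ × ℤ} (hv : nrm v = k) (hu : nrm u = k + 1) :
    (k < N → cut N v - cut N u = (1 / (k + 1)) / HH N) ∧ (N ≤ k → cut N v - cut N u = 0) := by
  constructor
  · intro hk
    unfold cut
    rw [hv, hu, Finset.sum_eq_sum_Ico_succ_bot hk]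
    ring
  · intro hk
    rw [cut_out (by omega), cut_out (by omega)]
    ring

lemma nrm_step (v : ℤ × ℤ) (j : Fin 3) :
    nrm (v + d3 j) ≤ nrm v + 1 ∧ nrm v ≤ nrm (v + d3 j) + 1 := by
  fin_cases j <;> simp [nrm, d3] <;> omega

/-- difference of the cut-off across an edge -/
lemma cut_diff {N : ℕ} (hN : 0 < N) (v : ℤ × ℤ) (j : Fin 3) :
    (cut N v - cut N (v + d3 j)) ^ 2 ≤
      (if nrm v ≤ N then 4 / ((nrm v + 1 : ℝ) ^ 2) else 0) / HH N ^ 2 := by
  have hH := HH_pos hN
  obtain ⟨h1, h2⟩ := nrm_step v j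
  have hpos : (0 : ℝ) ≤ (if nrm v ≤ N then 4 / ((nrm v + 1 : ℝ) ^ 2) else 0) / HH N ^ 2 := by
    split_ifs <;> positivity
  rcases lt_trichotomy (nrm v) (nrm (v + d3 j)) with h | h | h
  · have hk : nrm (v + d3 j) = nrm v + 1 := by omega
    obtain ⟨ha, hb⟩ := cut_succ (N := N) (rfl : nrm v = nrm v) hk
    by_cases hc : nrm v < N
    · rw [ha hc, if_pos hc.le, div_pow]
      apply div_le_div_of_nonneg_right _ (by positivity)
      rw [div_pow]
      have : (0 : ℝ) < ((nrm v : ℝ) + 1) ^ 2 := by positivity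
      rw [div_le_div_iff_of_pos_right this]
      norm_num
    · rw [hb (by omega)]
      simpa using hpos
  · have : cut N v = cut N (v + d3 j) := by unfold cut; rw [h]
    rw [this]
    simpa using hpos
  · have hk : nrm v = nrm (v + d3 j) + 1 := by omega
    obtain ⟨ha, hb⟩ := cut_succ (N := N) (rfl : nrm (v + d3 j) = nrm (v + d3 j)) hk
    by_cases hc : nrm (v + d3 j) < N
    · have e : cut N v - cut N (v + d3 j) = - (cut N (v + d3 j) - cut N v) := by ring
      rw [e, ha hc, if_pos (by omega), neg_sq, div_pow]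
      apply div_le_div_of_nonneg_right _ (by positivity)
      rw [div_pow, hk]
      push_cast
      set m : ℝ := (nrm (v + d3 j) : ℝ) with hm
      have hm0 : 0 ≤ m := by positivity
      rw [div_le_div_iff₀ (by positivity) (by positivity)]
      nlinarith
    · have e : cut N v - cut N (v + d3 j) = - (cut N (v + d3 j) - cut N v) := by ring
      rw [e, hb (by omega)]
      simpa using hpos

/-- the box -/
noncomputable def box (N : ℕ) : Finset (ℤ × ℤ) := Icc (-(N : ℤ)) N ×ˢ Icc (-(N : ℤ)) N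

lemma mem_box {N : ℕ} {v : ℤ × ℤ} : v ∈ box N ↔ nrm v ≤ N := by
  simp only [box, mem_product, mem_Icc, nrm]
  omega

lemma card_shell (N k : ℕ) : ((box N).filter (fun v => nrm v = k)).card ≤ 8 * (k + 1) := by
  classical
  have hsub : (box N).filter (fun v => nrm v = k) ⊆
      (({(k : ℤ), -(k : ℤ)} : Finset ℤ) ×ˢ Icc (-(k : ℤ)) k) ∪
        (Icc (-(k : ℤ)) k ×ˢ ({(k : ℤ), -(k : ℤ)} : Finset ℤ)) := by
    intro v hv
    have hv2 : nrm v = k := (Finset.mem_filter.mp hv).2
    simp only [nrm] at hv2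
    simp only [mem_union, mem_product, mem_insert, mem_singleton, mem_Icc]
    omega
  refine (card_le_card hsub).trans ((card_union_le _ _).trans ?_)
  rw [card_product, card_product]
  have h2 : ({(k : ℤ), -(k : ℤ)} : Finset ℤ).card ≤ 2 := card_le_two
  have h3 : (Icc (-(k : ℤ)) k).card = 2 * k + 1 := by
    rw [Int.card_Icc]; omega
  rw [h3]
  nlinarith

lemma sum_cut_diff {N : ℕ} (hN : 0 < N) (j : Fin 3) :
    ∑ v ∈ box N, (cut N v - cut N (v + d3 j)) ^ 2 ≤ 32 * HH (N + 1) / HH N ^ 2 := by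
  have hH := HH_pos hN
  calc ∑ v ∈ box N, (cut N v - cut N (v + d3 j)) ^ 2
      ≤ ∑ v ∈ box N, (4 / ((nrm v + 1 : ℝ) ^ 2)) / HH N ^ 2 := by
        apply sum_le_sum
        intro v hv
        have := cut_diff hN v j
        rwa [if_pos (mem_box.mp hv)] at this
    _ = (∑ v ∈ box N, (4 / ((nrm v + 1 : ℝ) ^ 2))) / HH N ^ 2 := by rw [sum_div]
    _ ≤ 32 * HH (N + 1) / HH N ^ 2 := by
        apply div_le_div_of_nonneg_right _ (by positivity)
        rw [← sum_fiberwise_of_maps_to (s := box N) (t := range (N + 1)) (g := nrm)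
          (fun v hv => by simp only [mem_range]; have := mem_box.mp hv; omega)]
        unfold HH
        rw [mul_sum]
        apply sum_le_sum
        intro k _
        have : ∑ v ∈ (box N).filter (fun v => nrm v = k), (4 / ((nrm v + 1 : ℝ) ^ 2)) =
            ((box N).filter (fun v => nrm v = k)).card * (4 / ((k + 1 : ℝ) ^ 2)) := by
          rw [← nsmul_eq_mul, ← sum_const]
          apply sum_congr rfl
          intro v hv
          rw [(mem_filter.mp hv).2]
        rw [this]
        have hc : (((box N).filter (fun v => nrm v = k)).card : ℝ) ≤ 8 * (k + 1) := by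
          exact_mod_cast card_shell N k
        calc (((box N).filter (fun v => nrm v = k)).card : ℝ) * (4 / ((k + 1 : ℝ) ^ 2))
            ≤ (8 * (k + 1)) * (4 / ((k + 1 : ℝ) ^ 2)) := by
              apply mul_le_mul_of_nonneg_right hc (by positivity)
          _ = 32 * (1 / ((k : ℝ) + 1)) := by
              have : (k : ℝ) + 1 ≠ 0 := by positivity
              field_simp
              norm_num

lemma tendsto_HH : Tendsto HH atTop atTop := by
  have := Real.tendsto_sum_range_one_div_nat_succ_atTop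
  exact this

lemma tendsto_bound : Tendsto (fun N : ℕ => 32 * HH (N + 1) / HH N ^ 2) atTop (𝓝 0) := by
  have h1 : Tendsto (fun N : ℕ => 64 / HH N) atTop (𝓝 0) :=
    tendsto_const_nhds.div_atTop tendsto_HH
  apply squeeze_zero' _ _ h1
  · filter_upwards [eventually_gt_atTop 0] with N hN
    have := HH_pos hN
    have := HH_pos (Nat.succ_pos N)
    positivity
  · filter_upwards [eventually_gt_atTop 0] with N hN
    have h0 := HH_pos hN
    have h2 : HH (N + 1) ≤ 2 * HH N := by
      have e : HH (N + 1) = HH N + 1 / ((N : ℝ) + 1) := by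
        unfold HH; rw [sum_range_succ]
      have : (1 : ℝ) / ((N : ℝ) + 1) ≤ HH N := by
        have h1 : (1 : ℝ) ≤ HH N := by
          unfold HH
          calc (1 : ℝ) = ∑ i ∈ range 1, (1 : ℝ) / (i + 1) := by simp
            _ ≤ ∑ i ∈ range N, (1 : ℝ) / (i + 1) := by
              apply sum_le_sum_of_subset_of_nonneg
              · intro i hi; simp at hi ⊢; omega
              · intro i _ _; positivity
        have h3 : (1 : ℝ) / ((N : ℝ) + 1) ≤ 1 := by
          rw [div_le_one (by positivity)]; linarith [(Nat.cast_nonneg N : (0 : ℝ) ≤ N)]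
        linarith
      linarith
    calc 32 * HH (N + 1) / HH N ^ 2 ≤ 32 * (2 * HH N) / HH N ^ 2 := by
          apply div_le_div_of_nonneg_right _ (by positivity)
          linarith
      _ = 64 / HH N := by field_simp; norm_num

/-- pointwise inequality -/
lemma cacc (a b x y B : ℝ) (hx : |x| ≤ B) (hy : |y| ≤ B) :
    (1 / 4) * (a ^ 2 + b ^ 2) * (x - y) ^ 2 - 2 * B ^ 2 * (a - b) ^ 2 ≤
      (a ^ 2 * x - b ^ 2 * y) * (x - y) := by
  have hB : 0 ≤ B := (abs_nonneg x).trans hx
  have hs : (x + y) ^ 2 ≤ 4 * B ^ 2 := by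
    have h1 : |x + y| ≤ 2 * B := (abs_add_le x y).trans (by linarith)
    have h2 : |x + y| ^ 2 ≤ (2 * B) ^ 2 := pow_le_pow_left₀ (abs_nonneg _) h1 2
    rw [sq_abs] at h2
    linarith
  have key : (a ^ 2 * x - b ^ 2 * y) * (x - y) =
      ((a ^ 2 + b ^ 2) / 2) * (x - y) ^ 2 + ((a + b) * (x - y)) * ((a - b) * (x + y)) / 2 := by
    ring
  have h3 : -(((a + b) * (x - y)) ^ 2 / 8 + ((a - b) * (x + y)) ^ 2 / 2) ≤
      ((a + b) * (x - y)) * ((a - b) * (x + y)) / 2 := by
    nlinarith [sq_nonneg ((a + b) * (x - y) / 2 + (a - b) * (x + y))]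
  have h4 : ((a - b) * (x + y)) ^ 2 ≤ (a - b) ^ 2 * (4 * B ^ 2) := by
    rw [mul_pow]
    exact mul_le_mul_of_nonneg_left hs (sq_nonneg _)
  have h5 : ((a + b) * (x - y)) ^ 2 ≤ 2 * (a ^ 2 + b ^ 2) * (x - y) ^ 2 := by
    rw [mul_pow]
    apply mul_le_mul_of_nonneg_right _ (sq_nonneg _)
    nlinarith [sq_nonneg (a - b)]
  rw [key]
  nlinarith


/-- summation by parts for one direction -/
lemma parts (k : ℤ × ℤ → ℝ) (d : ℤ × ℤ) (f h : ℤ × ℤ → ℝ) (hf : f.support.Finite) :
    ∑' v, (f v * (k v * (h v - h (v + d)) + k (v - d) * (h v - h (v - d)))) =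
      ∑' v, k v * ((f v - f (v + d)) * (h v - h (v + d))) := by
  have hf2 : (Function.support fun v => f (v + d)).Finite := by
    have : (Function.support fun v => f (v + d)) = (fun v => v + d) ⁻¹' f.support := rfl
    rw [this]
    exact hf.preimage (add_left_injective d).injOn
  have s1 : Summable fun v => f v * (k v * (h v - h (v + d))) := by
    apply summable_of_hasFiniteSupport
    exact hf.subset (Function.support_mul_subset_left _ _)
  have s2 : Summable fun v => f v * (k (v - d) * (h v - h (v - d))) := by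
    apply summable_of_hasFiniteSupport
    exact hf.subset (Function.support_mul_subset_left _ _)
  have s3 : Summable fun v => f (v + d) * (k v * (h (v + d) - h v)) := by
    apply summable_of_hasFiniteSupport
    exact hf2.subset (Function.support_mul_subset_left _ _)
  have e2 : ∑' v, f v * (k (v - d) * (h v - h (v - d))) =
      ∑' v, f (v + d) * (k v * (h (v + d) - h v)) := by
    rw [← (Equiv.addRight d).tsum_eq]
    simp
  calc ∑' v, (f v * (k v * (h v - h (v + d)) + k (v - d) * (h v - h (v - d))))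
      = ∑' v, (f v * (k v * (h v - h (v + d))) + f v * (k (v - d) * (h v - h (v - d)))) := by
        simp only [mul_add]
    _ = ∑' v, f v * (k v * (h v - h (v + d))) +
          ∑' v, f v * (k (v - d) * (h v - h (v - d))) := s1.tsum_add s2
    _ = ∑' v, f v * (k v * (h v - h (v + d))) +
          ∑' v, f (v + d) * (k v * (h (v + d) - h v)) := by rw [e2]
    _ = ∑' v, (f v * (k v * (h v - h (v + d))) + f (v + d) * (k v * (h (v + d) - h v))) :=
        (s1.tsum_add s3).symm
    _ = ∑' v, k v * ((f v - f (v + d)) * (h v - h (v + d))) := by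
        apply tsum_congr; intro v; ring

lemma cut_support (N : ℕ) : (Function.support (cut N)).Finite := by
  apply (box N).finite_toSet.subset
  intro v hv
  rw [Finset.mem_coe, mem_box]
  by_contra h
  exact hv (cut_out (by omega))

/-- energy bound at the origin -/
lemma energy (k : Fin 3 → ℤ × ℤ → ℝ) (C : ℝ) (hk0 : ∀ j v, 0 < k j v) (hk1 : ∀ j v, k j v ≤ C)
    (h : ℤ × ℤ → ℝ) (B : ℝ) (hB : ∀ v, |h v| ≤ B)
    (harm : ∀ v, ∑ j, (k j v * (h v - h (v + d3 j)) +
      k j (v - d3 j) * (h v - h (v - d3 j))) = 0) (j0 : Fin 3) {N : ℕ} (hN : 0 < N) :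
    (1 / 4) * k j0 0 * (h 0 - h (d3 j0)) ^ 2 ≤ 6 * B ^ 2 * C * (32 * HH (N + 1) / HH N ^ 2) := by
  classical
  have hC : 0 ≤ C := (hk0 0 0).le.trans (hk1 0 0)
  set φ := cut N with hφ
  have hsupp := cut_support N
  set f : ℤ × ℤ → ℝ := fun v => φ v ^ 2 * h v with hf
  have hfs : f.support.Finite := by
    apply hsupp.subset
    intro v hv hv2
    apply hv
    have : φ v = 0 := hv2
    simp [hf, this]
  have hfs2 : ∀ d, (Function.support fun v => f (v + d)).Finite := by
    intro d
    have : (Function.support fun v => f (v + d)) = (fun v => v + d) ⁻¹' f.support := rfl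
    rw [this]
    exact hfs.preimage (add_left_injective d).injOn
  have hφ2 : ∀ d, (Function.support fun v => φ (v + d)).Finite := by
    intro d
    have : (Function.support fun v => φ (v + d)) = (fun v => v + d) ⁻¹' φ.support := rfl
    rw [this]
    exact hsupp.preimage (add_left_injective d).injOn
  -- total identity
  have t0 : ∑ j, ∑' v, k j v * ((f v - f (v + d3 j)) * (h v - h (v + d3 j))) = 0 := by
    have : ∀ j ∈ (univ : Finset (Fin 3)),
        ∑' v, k j v * ((f v - f (v + d3 j)) * (h v - h (v + d3 j))) =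
        ∑' v, (f v * (k j v * (h v - h (v + d3 j)) + k j (v - d3 j) * (h v - h (v - d3 j)))) :=
      fun j _ => (parts (k j) (d3 j) f h hfs).symm
    rw [sum_congr rfl this, ← Summable.tsum_finsetSum]
    · have : ∀ v, ∑ j, (f v * (k j v * (h v - h (v + d3 j)) +
          k j (v - d3 j) * (h v - h (v - d3 j)))) = 0 := by
        intro v
        rw [← mul_sum, harm v, mul_zero]
      simp only [this]
      exact tsum_zero
    · intro j _
      apply summable_of_hasFiniteSupport
      exact hfs.subset (Function.support_mul_subset_left _ _)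
  -- lower bound for each direction
  have sA : ∀ j, Summable fun v => k j v * ((1 / 4) * (φ v ^ 2 + φ (v + d3 j) ^ 2) *
      (h v - h (v + d3 j)) ^ 2) := by
    intro j
    apply summable_of_hasFiniteSupport
    apply (hsupp.union (hφ2 (d3 j))).subset
    intro v hv
    by_contra hc
    apply hv
    simp only [Set.mem_union, Function.mem_support, not_or, not_not] at hc
    have c1 : φ v = 0 := hc.1
    simp [c1, hc.2]
  have sB : ∀ j, Summable fun v => k j v * (2 * B ^ 2 * (φ v - φ (v + d3 j)) ^ 2) := by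
    intro j
    apply summable_of_hasFiniteSupport
    apply (hsupp.union (hφ2 (d3 j))).subset
    intro v hv
    by_contra hc
    apply hv
    simp only [Set.mem_union, Function.mem_support, not_or, not_not] at hc
    have c1 : φ v = 0 := hc.1
    simp [c1, hc.2]
  have sC : ∀ j, Summable fun v => k j v * ((f v - f (v + d3 j)) * (h v - h (v + d3 j))) := by
    intro j
    apply summable_of_hasFiniteSupport
    apply (hfs.union (hfs2 (d3 j))).subset
    intro v hv
    by_contra hc
    apply hv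
    simp only [Set.mem_union, Function.mem_support, not_or, not_not] at hc
    simp [hc.1, hc.2]
  have lower : ∀ j, ∑' v, k j v * ((1 / 4) * (φ v ^ 2 + φ (v + d3 j) ^ 2) *
      (h v - h (v + d3 j)) ^ 2) - ∑' v, k j v * (2 * B ^ 2 * (φ v - φ (v + d3 j)) ^ 2) ≤
      ∑' v, k j v * ((f v - f (v + d3 j)) * (h v - h (v + d3 j))) := by
    intro j
    rw [← (sA j).tsum_sub (sB j)]
    apply Summable.tsum_le_tsum _ ((sA j).sub (sB j)) (sC j)
    intro v
    have := cacc (φ v) (φ (v + d3 j)) (h v) (h (v + d3 j)) B (hB _) (hB _)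
    have h2 := mul_le_mul_of_nonneg_left this (hk0 j v).le
    simp only [hf]
    linarith
  -- upper bound of the gradient term
  have upper : ∀ j, ∑' v, k j v * (2 * B ^ 2 * (φ v - φ (v + d3 j)) ^ 2) ≤
      2 * B ^ 2 * C * (32 * HH (N + 1) / HH N ^ 2) := by
    intro j
    have hz : ∀ v, v ∉ box N → (φ v - φ (v + d3 j)) ^ 2 = 0 := by
      intro v hv
      have h1 := cut_diff hN v j
      rw [mem_box] at hv
      rw [if_neg hv, zero_div] at h1
      exact le_antisymm h1 (sq_nonneg _)
    rw [tsum_eq_sum (s := box N)]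
    · calc ∑ v ∈ box N, k j v * (2 * B ^ 2 * (φ v - φ (v + d3 j)) ^ 2)
          ≤ ∑ v ∈ box N, C * (2 * B ^ 2 * (φ v - φ (v + d3 j)) ^ 2) := by
            apply sum_le_sum
            intro v _
            exact mul_le_mul_of_nonneg_right (hk1 j v) (by positivity)
        _ = 2 * B ^ 2 * C * ∑ v ∈ box N, (φ v - φ (v + d3 j)) ^ 2 := by
            rw [mul_sum]; apply sum_congr rfl; intro v _; ring
        _ ≤ _ := by
            apply mul_le_mul_of_nonneg_left (sum_cut_diff hN j) (by positivity)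
    · intro v hv
      rw [hz v hv]; ring
  have hA0 : ∀ j, 0 ≤ ∑' v, k j v * ((1 / 4) * (φ v ^ 2 + φ (v + d3 j) ^ 2) *
      (h v - h (v + d3 j)) ^ 2) := by
    intro j
    apply tsum_nonneg
    intro v
    have := (hk0 j v).le
    positivity
  have hsum : ∑ j, ∑' v, k j v * ((1 / 4) * (φ v ^ 2 + φ (v + d3 j) ^ 2) *
      (h v - h (v + d3 j)) ^ 2) ≤ 6 * B ^ 2 * C * (32 * HH (N + 1) / HH N ^ 2) := by
    have h1 : ∑ j, (∑' v, k j v * ((1 / 4) * (φ v ^ 2 + φ (v + d3 j) ^ 2) *
      (h v - h (v + d3 j)) ^ 2) - ∑' v, k j v * (2 * B ^ 2 * (φ v - φ (v + d3 j)) ^ 2)) ≤ 0 := by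
      rw [← t0]
      exact sum_le_sum fun j _ => lower j
    rw [sum_sub_distrib] at h1
    have h2 : ∑ j : Fin 3, ∑' v, k j v * (2 * B ^ 2 * (φ v - φ (v + d3 j)) ^ 2) ≤
        ∑ _j : Fin 3, 2 * B ^ 2 * C * (32 * HH (N + 1) / HH N ^ 2) :=
      sum_le_sum fun j _ => upper j
    rw [sum_const, card_univ, Fintype.card_fin, nsmul_eq_mul] at h2
    push_cast at h2
    linarith
  have h3 : ∑' v, k j0 v * ((1 / 4) * (φ v ^ 2 + φ (v + d3 j0) ^ 2) *
      (h v - h (v + d3 j0)) ^ 2) ≤ ∑ j, ∑' v, k j v * ((1 / 4) * (φ v ^ 2 + φ (v + d3 j) ^ 2) *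
      (h v - h (v + d3 j)) ^ 2) :=
    single_le_sum (f := fun j => ∑' v, k j v * ((1 / 4) * (φ v ^ 2 + φ (v + d3 j) ^ 2) *
      (h v - h (v + d3 j)) ^ 2)) (fun j _ => hA0 j) (mem_univ j0)
  have h4 : k j0 0 * ((1 / 4) * (φ 0 ^ 2 + φ (0 + d3 j0) ^ 2) *
      (h 0 - h (0 + d3 j0)) ^ 2) ≤ ∑' v, k j0 v * ((1 / 4) * (φ v ^ 2 + φ (v + d3 j0) ^ 2) *
      (h v - h (v + d3 j0)) ^ 2) := by
    apply (sA j0).le_tsum 0
    intro v _
    have := (hk0 j0 v).le
    positivity
  have h5 : (1 / 4) * k j0 0 * (h 0 - h (d3 j0)) ^ 2 ≤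
      k j0 0 * ((1 / 4) * (φ 0 ^ 2 + φ (0 + d3 j0) ^ 2) * (h 0 - h (0 + d3 j0)) ^ 2) := by
    have e0 : φ 0 = 1 := cut_zero hN
    rw [e0, zero_add]
    have := (hk0 j0 0).le
    have h6 : 0 ≤ k j0 0 * (h 0 - h (d3 j0)) ^ 2 := by positivity
    nlinarith [mul_nonneg h6 (sq_nonneg (φ (d3 j0)))]
  linarith

/-- Liouville theorem at the origin -/
lemma liouville0 (k : Fin 3 → ℤ × ℤ → ℝ) (C : ℝ) (hk0 : ∀ j v, 0 < k j v)
    (hk1 : ∀ j v, k j v ≤ C) (h : ℤ × ℤ → ℝ) (B : ℝ) (hB : ∀ v, |h v| ≤ B)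
    (harm : ∀ v, ∑ j, (k j v * (h v - h (v + d3 j)) +
      k j (v - d3 j) * (h v - h (v - d3 j))) = 0) (j0 : Fin 3) :
    h (d3 j0) = h 0 := by
  have lim : Tendsto (fun N : ℕ => 6 * B ^ 2 * C * (32 * HH (N + 1) / HH N ^ 2)) atTop
      (𝓝 (6 * B ^ 2 * C * 0)) := tendsto_bound.const_mul _
  rw [mul_zero] at lim
  have h1 : (1 / 4) * k j0 0 * (h 0 - h (d3 j0)) ^ 2 ≤ 0 := by
    apply ge_of_tendsto lim
    filter_upwards [eventually_gt_atTop 0] with N hN
    exact energy k C hk0 hk1 h B hB harm j0 hN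
  have h2 := hk0 j0 0
  have h3 : (h 0 - h (d3 j0)) ^ 2 ≤ 0 := by
    by_contra hc
    push Not at hc
    have : 0 < (1 / 4) * k j0 0 * (h 0 - h (d3 j0)) ^ 2 := by positivity
    linarith
  have h4 : h 0 - h (d3 j0) = 0 := by
    have := le_antisymm h3 (sq_nonneg _)
    exact pow_eq_zero_iff (two_ne_zero) |>.mp this
  linarith

/-- **Liouville theorem** on the triangular lattice with bounded symmetric conductances. -/
theorem liouville (k : Fin 3 → ℤ × ℤ → ℝ) (C : ℝ) (hk0 : ∀ j v, 0 < k j v)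
    (hk1 : ∀ j v, k j v ≤ C) (h : ℤ × ℤ → ℝ) (B : ℝ) (hB : ∀ v, |h v| ≤ B)
    (harm : ∀ v, ∑ j, (k j v * (h v - h (v + d3 j)) +
      k j (v - d3 j) * (h v - h (v - d3 j))) = 0) (j0 : Fin 3) (w : ℤ × ℤ) :
    h (w + d3 j0) = h w := by
  have := liouville0 (fun j v => k j (v + w)) C (fun j v => hk0 j _) (fun j v => hk1 j _)
    (fun v => h (v + w)) B (fun v => hB _) ?_ j0
  · simp only [zero_add] at this
    rw [add_comm w]; exact this
  · intro v
    have := harm (v + w)
    rw [← this]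
    apply sum_congr rfl
    intro j _
    rw [show v + w + d3 j = v + d3 j + w by abel, show v + w - d3 j = v - d3 j + w by abel]

end Run7.h775.Doyle
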