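import Pool.Agent.Run7.h775.Doyle.Ring
import Pool.Agent.Run7.h775.Doyle.Recur

/-!
# Doyle's question: locally univalent hexagonal circle packings
-/

namespace Run7.h775.Doyle

open Finset Real

/-- third vertices of the two faces containing the edge `(v, v + d3 j)` -/
def up3 : Fin 3 → ℤ × ℤ := ![(0, 1), (-1, 1), (-1, 0)]
def dn3 : Fin 3 → ℤ × ℤ := ![(1, -1), (1, 0), (0, 1)]

/-- conductance of the edge `(v, v + d3 j)` -/
noncomputable def cond (x h : ℤ × ℤ → ℝ) (j : Fin 3) (v : ℤ × ℤ) : ℝ :=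
  KK x h v (v + d3 j) (v + up3 j) + KK x h v (v + d3 j) (v + dn3 j)

lemma harmonic_of_labels {x h : ℤ × ℤ → ℝ}
    (h0 : ∀ v, angleSum (fun u => exp (x u)) v = 2 * π)
    (h1 : ∀ v, angleSum (fun u => exp (x u + h u)) v = 2 * π) (v : ℤ × ℤ) :
    ∑ j, (cond x h j v * (h v - h (v + d3 j)) +
      cond x h j (v - d3 j) * (h v - h (v - d3 j))) = 0 := by
  obtain ⟨n, m⟩ := v
  have e0 := h0 (n, m)
  have e1 := h1 (n, m)
  have key : ∑ j : Fin 6, (angleAt (exp (x (n, m) + h (n, m)))
      (exp (x ((n, m) + nb j) + h ((n, m) + nb j)))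
      (exp (x ((n, m) + nb (j + 1)) + h ((n, m) + nb (j + 1)))) -
      angleAt (exp (x (n, m))) (exp (x ((n, m) + nb j))) (exp (x ((n, m) + nb (j + 1))))) = 0 := by
    rw [sum_sub_distrib]
    unfold angleSum at e0 e1
    rw [e0, e1, sub_self]
  simp only [angle_diff] at key
  simp only [Fin.sum_univ_six, Fin.sum_univ_three, nb, d3, up3, dn3, cond, Prod.mk_add_mk,
    Prod.mk_sub_mk, Matrix.cons_val_zero, Matrix.cons_val_one, Matrix.cons_val,
    Fin.isValue, add_zero, sub_zero] at key ⊢
  simp only [Fin.reduceAdd, Matrix.cons_val_zero, Matrix.cons_val_one, Matrix.cons_val,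
    Fin.isValue, Prod.mk_add_mk, add_zero] at key
  simp only [show n - -1 = n + 1 by ring,
    show n - 1 + 1 = n by ring, show m + -1 = m - 1 by ring, show n + -1 = n - 1 by ring,
    show m - 1 + 1 = m by ring, show n + 1 + -1 = n by ring] at key ⊢
  rw [KK_symm x h (n - 1, m) (n, m) _, KK_symm x h (n - 1, m) (n, m) _,
    KK_symm x h (n, m - 1) (n, m) _, KK_symm x h (n, m - 1) (n, m) _,
    KK_symm x h (n + 1, m - 1) (n, m) _, KK_symm x h (n + 1, m - 1) (n, m) _]
  linear_combination -key


lemma ratio_bound {R : ℤ × ℤ → ℝ} {z : ℤ × ℤ → ℂ} (hR : IsPackingLabel R)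
    (hP : IsCirclePacking R z) (hU : LocallyUnivalent R z) (j : Fin 6) :
    ∀ v, |log (R (v + nb j)) - log (R v)| ≤ -log (FF 4 (1 / 2) ^ 2) := by
  intro v
  have hpos := hR.1
  have hF : 0 < FF 4 (1 / 2) ^ 2 := by
    have := FF_pos 4 (1 / 2) (by norm_num)
    positivity
  have h1 := ring_lemma hR hP hU v j
  have h2 := ring_lemma hR hP hU (v + nb j) (j + 3)
  have h3 : v + nb j + nb (j + 3) = v := by
    have : ∀ m : Fin 6, nb m + nb (m + 3) = 0 := by decide
    rw [add_assoc, this, add_zero]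
  rw [h3] at h2
  have l1 := log_le_log (mul_pos hF (hpos _)) h1
  have l2 := log_le_log (mul_pos hF (hpos _)) h2
  rw [log_mul hF.ne' (hpos _).ne'] at l1 l2
  rw [abs_le]
  constructor <;> linarith

/-- a function on `ℤ × ℤ` invariant under the three steps is constant -/
lemma const_of_steps {h : ℤ × ℤ → ℝ} (hs : ∀ j w, h (w + d3 j) = h w) (v : ℤ × ℤ) :
    h v = h 0 := by
  have h1 : ∀ n m : ℤ, h (n + 1, m) = h (n, m) := by
    intro n m
    simpa [d3] using hs 0 (n, m)
  have h2 : ∀ n m : ℤ, h (n, m + 1) = h (n, m) := by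
    intro n m
    simpa [d3] using hs 1 (n, m)
  have h3 : ∀ n m : ℤ, h (n, m) = h (0, m) := by
    intro n m
    induction n using Int.induction_on with
    | zero => rfl
    | succ i ih => rw [h1]; exact ih
    | pred i ih => rw [← h1, sub_add_cancel]; exact ih
  have h4 : ∀ m : ℤ, h (0, m) = h (0, 0) := by
    intro m
    induction m using Int.induction_on with
    | zero => rfl
    | succ i ih => rw [h2]; exact ih
    | pred i ih => rw [← h2, sub_add_cancel]; exact ih
  obtain ⟨n, m⟩ := v
  rw [h3, h4]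
  rfl

/-- Two packing labels with bounded ratio are proportional. -/
theorem labels_rigid {R S : ℤ × ℤ → ℝ} (hR : IsPackingLabel R) (hS : IsPackingLabel S) (B : ℝ)
    (hB : ∀ v, |log (S v) - log (R v)| ≤ B) (v : ℤ × ℤ) :
    log (S v) - log (R v) = log (S 0) - log (R 0) := by
  set x : ℤ × ℤ → ℝ := fun v => log (R v) with hx
  set h : ℤ × ℤ → ℝ := fun v => log (S v) - log (R v) with hh
  have e0 : (fun u => exp (x u)) = R := by
    funext u; exact exp_log (hR.1 u)
  have e1 : (fun u => exp (x u + h u)) = S := by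
    funext u
    simp only [hx, hh]
    rw [add_sub_cancel]
    exact exp_log (hS.1 u)
  have harm := harmonic_of_labels (x := x) (h := h) (by rw [e0]; exact hR.2)
    (by rw [e1]; exact hS.2)
  have hl := liouville (cond x h) 1
    (fun j v => add_pos (KK_pos _ _ _ _ _) (KK_pos _ _ _ _ _))
    (fun j v => by
      have h1 := KK_le x h v (v + d3 j) (v + up3 j)
      have h2 := KK_le x h v (v + d3 j) (v + dn3 j)
      unfold cond
      linarith)
    h B hB harm
  exact const_of_steps hl v

lemma label_shift {R : ℤ × ℤ → ℝ} (hR : IsPackingLabel R) (e : ℤ × ℤ) :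
    IsPackingLabel fun v => R (v + e) := by
  refine ⟨fun v => hR.1 _, fun v => ?_⟩
  rw [← hR.2 (v + e)]
  unfold angleSum
  apply sum_congr rfl
  intro j _
  change angleAt (R (v + e)) (R (v + nb j + e)) (R (v + nb (j + 1) + e)) = _
  rw [add_right_comm v (nb j) e, add_right_comm v (nb (j + 1)) e]

theorem doyle (R : ℤ × ℤ → ℝ) (hR : IsPackingLabel R)
    (hz : ∃ z : ℤ × ℤ → ℂ, IsCirclePacking R z ∧ LocallyUnivalent R z) :
    ∃ a b c : ℝ, 0 < a ∧ 0 < b ∧ 0 < c ∧ ∀ n m : ℤ, R (n, m) = c * a ^ n * b ^ m := by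
  obtain ⟨z, hP, hU⟩ := hz
  have hb := fun j => labels_rigid hR (label_shift hR (nb j)) _ (ratio_bound hR hP hU j)
  set α := log (R (nb 0)) - log (R 0) with hα
  set β := log (R (nb 1)) - log (R 0) with hβ
  have h1 : ∀ n m : ℤ, log (R (n + 1, m)) = log (R (n, m)) + α := by
    intro n m
    have := hb 0 (n, m)
    simp only [zero_add] at this
    have e : (n, m) + nb 0 = (n + 1, m) := by simp [nb]
    rw [e] at this
    linarith
  have h2 : ∀ n m : ℤ, log (R (n, m + 1)) = log (R (n, m)) + β := by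
    intro n m
    have := hb 1 (n, m)
    simp only [zero_add] at this
    have e : (n, m) + nb 1 = (n, m + 1) := by simp [nb]
    rw [e] at this
    linarith
  have h3 : ∀ n m : ℤ, log (R (n, m)) = log (R (0, m)) + n * α := by
    intro n m
    induction n using Int.induction_on with
    | zero => simp
    | succ i ih => rw [h1, ih]; push_cast; ring
    | pred i ih =>
      have := h1 (-(i : ℤ) - 1) m
      rw [sub_add_cancel] at this
      push_cast at ih ⊢
      linarith
  have h4 : ∀ m : ℤ, log (R (0, m)) = log (R (0, 0)) + m * β := by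
    intro m
    induction m using Int.induction_on with
    | zero => simp
    | succ i ih => rw [h2, ih]; push_cast; ring
    | pred i ih =>
      have := h2 0 (-(i : ℤ) - 1)
      rw [sub_add_cancel] at this
      push_cast at ih ⊢
      linarith
  refine ⟨exp α, exp β, R (0, 0), exp_pos _, exp_pos _, hR.1 _, fun n m => ?_⟩
  have p1 : exp ((n : ℝ) * α) = exp α ^ n := by
    rw [mul_comm, exp_mul, rpow_intCast]
  have p2 : exp ((m : ℝ) * β) = exp β ^ m := by
    rw [mul_comm, exp_mul, rpow_intCast]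
  rw [← exp_log (hR.1 (n, m)), h3, h4, exp_add, exp_add, exp_log (hR.1 _), p1, p2]
  ring

end Run7.h775.Doyle
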