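import Pool.Agent.Run7.h775.Doyle.Angle

/-!
# The ring lemma for locally univalent flowers
-/

namespace Run7.h775.Doyle

open Finset Real

/-- distance of the normalised contact points -/
lemma chord (a b : ℂ) (A B : ℝ) (hA : 0 < A) (hB : 0 < B) (ha : ‖a‖ = A) (hb : ‖b‖ = B) :
    ‖a / A - b / B‖ ^ 2 * (A * B) = ‖a - b‖ ^ 2 - (A - B) ^ 2 := by
  have h1 : a.re ^ 2 + a.im ^ 2 = A ^ 2 := by
    rw [← ha, ← Complex.normSq_eq_norm_sq, Complex.normSq_apply]; ring
  have h2 : b.re ^ 2 + b.im ^ 2 = B ^ 2 := by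
    rw [← hb, ← Complex.normSq_eq_norm_sq, Complex.normSq_apply]; ring
  rw [← Complex.normSq_eq_norm_sq, ← Complex.normSq_eq_norm_sq, Complex.normSq_apply,
    Complex.normSq_apply]
  simp only [Complex.sub_re, Complex.sub_im, Complex.div_ofReal_re, Complex.div_ofReal_im]
  field_simp
  linear_combination (B - A) * B * h1 + (A - B) * A * h2

/-- lower bounds on a chain of circles -/
noncomputable def FF : ℕ → ℝ → ℝ
  | 0, δ => δ
  | k + 1, δ => FF k (δ ^ 2 / 5)

lemma FF_le (k : ℕ) : ∀ δ : ℝ, 0 < δ → δ ≤ 1 → FF k δ ≤ δ := by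
  induction k with
  | zero => intro δ _ _; exact le_refl _
  | succ k ih =>
    intro δ h0 h1
    have h2 : 0 < δ ^ 2 / 5 := by positivity
    have h3 : δ ^ 2 / 5 ≤ δ := by nlinarith
    exact (ih _ h2 (h3.trans h1)).trans h3

lemma FF_pos (k : ℕ) : ∀ δ : ℝ, 0 < δ → 0 < FF k δ := by
  induction k with
  | zero => intro δ h; exact h
  | succ k ih => intro δ h; exact ih _ (by positivity)

lemma chain (s : ℕ → ℝ) (w : ℕ → ℂ) (hs0 : ∀ i, 0 < s i) (hs1 : ∀ i, s i < 1)
    (hcons : ∀ i, dist (w i) (w (i + 1)) ≤ 2 * (s i * s (i + 1)))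
    (hdist : ∀ a b, a < b → b ≤ a + 5 → 2 * (s a * s b) ≤ dist (w a) (w b)) :
    ∀ (k : ℕ) (δ : ℝ), 0 < δ → δ ≤ 1 → ∀ a b, a < b → b ≤ a + 5 → b ≤ a + (k + 1) →
      δ ≤ s a → δ ≤ s b → ∀ c, a ≤ c → c ≤ b → FF k δ ≤ s c := by
  intro k
  induction k with
  | zero =>
    intro δ h0 h1 a b hab _ hb ha hb' c hac hcb
    have : c = a ∨ c = b := by omega
    rcases this with rfl | rfl
    · exact ha
    · exact hb'
  | succ k ih =>
    intro δ h0 h1 a b hab h5 hb ha hb' c hac hcb
    have hδ0 : 0 < δ ^ 2 / 5 := by positivity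
    have hδ1 : δ ^ 2 / 5 ≤ δ := by nlinarith
    by_cases hca : c = a
    · subst hca; exact (FF_le (k + 1) δ h0 h1).trans ha
    by_cases hcb2 : c = b
    · subst hcb2; exact (FF_le (k + 1) δ h0 h1).trans hb'
    -- there is a large circle strictly in between
    have hex : ∃ c', a < c' ∧ c' < b ∧ δ ^ 2 / 5 ≤ s c' := by
      by_contra hcon
      push Not at hcon
      have h3 : dist (w a) (w b) ≤ ∑ i ∈ Ico a b, dist (w i) (w (i + 1)) :=
        dist_le_Ico_sum_dist w hab.le
      have h4 : ∑ i ∈ Ico a b, dist (w i) (w (i + 1)) < ∑ _i ∈ Ico a b, 2 * (δ ^ 2 / 5) := by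
        apply sum_lt_sum_of_nonempty
        · exact ⟨a, by simp [hab]⟩
        · intro i hi
          rw [mem_Ico] at hi
          refine (hcons i).trans_lt ?_
          have : s i * s (i + 1) < δ ^ 2 / 5 := by
            by_cases hia : i = a
            · have hh := hcon (i + 1) (by omega) (by omega)
              nlinarith [hs0 i, hs1 i, hs0 (i + 1)]
            · have hh := hcon i (by omega) (by omega)
              nlinarith [hs0 i, hs1 (i + 1), hs0 (i + 1)]
          linarith
      rw [sum_const, Nat.card_Ico, nsmul_eq_mul] at h4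
      have h6 : ((b - a : ℕ) : ℝ) ≤ 5 := by
        have : b - a ≤ 5 := by omega
        exact_mod_cast this
      have h7 := hdist a b hab h5
      have h8 : δ ^ 2 ≤ s a * s b := by nlinarith
      nlinarith
    obtain ⟨c', hc1, hc2, hc3⟩ := hex
    rcases le_total c c' with hcc | hcc
    · exact ih _ hδ0 (hδ1.trans h1) a c' hc1 (by omega) (by omega) (hδ1.trans ha) hc3 c hac hcc
    · exact ih _ hδ0 (hδ1.trans h1) c' b hc2 (by omega) (by omega) hc3 (hδ1.trans hb') c hcc hcb

lemma nb_inj : Function.Injective nb := by decide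

lemma nb_ne_zero : ∀ j, nb j ≠ 0 := by decide

/-- **Ring lemma**: in a locally univalent packing the petals are not too small. -/
theorem ring_lemma {R : ℤ × ℤ → ℝ} {z : ℤ × ℤ → ℂ} (hR : IsPackingLabel R)
    (hP : IsCirclePacking R z) (hU : LocallyUnivalent R z) (v : ℤ × ℤ) (j : Fin 6) :
    FF 4 (1 / 2) ^ 2 * R v ≤ R (v + nb j) := by
  obtain ⟨hpos, hsum⟩ := hR
  have hv := hpos v
  -- the periodic sequence of petals
  let P : ℕ → ℤ × ℤ := fun i => v + nb (Fin.ofNat 6 i)
  let r : ℕ → ℝ := fun i => R (P i)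
  have hr : ∀ i, 0 < r i := fun i => hpos _
  let s : ℕ → ℝ := fun i => sqrt (r i / (R v + r i))
  let w : ℕ → ℂ := fun i => (z (P i) - z v) / ((R v + r i : ℝ) : ℂ)
  have hs2 : ∀ i, s i ^ 2 = r i / (R v + r i) := by
    intro i
    have := hr i
    exact sq_sqrt (by positivity)
  have hs0 : ∀ i, 0 < s i := by
    intro i
    have := hr i
    exact sqrt_pos.mpr (by positivity)
  have hs1 : ∀ i, s i < 1 := by
    intro i
    have := hr i
    have h2 : s i ^ 2 < 1 := by
      rw [hs2, div_lt_one (by positivity)]; linarith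
    nlinarith [hs0 i]
  have hPsucc : ∀ i, P (i + 1) = v + nb (Fin.ofNat 6 i + 1) := by
    intro i
    have : Fin.ofNat 6 (i + 1) = Fin.ofNat 6 i + 1 := by
      ext
      simp [Fin.ofNat, Fin.val_add]
    simp only [P, this]
  have hnorm : ∀ i, ‖z (P i) - z v‖ = R v + r i := by
    intro i
    have := hP.1 v (Fin.ofNat 6 i)
    rw [dist_comm, dist_eq_norm] at this
    exact this
  have hchord : ∀ a b, dist (w a) (w b) ^ 2 * ((R v + r a) * (R v + r b)) =
      dist (z (P a)) (z (P b)) ^ 2 - (r a - r b) ^ 2 := by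
    intro a b
    have ha := hr a
    have hb := hr b
    have := chord (z (P a) - z v) (z (P b) - z v) (R v + r a) (R v + r b) (by positivity)
      (by positivity) (hnorm a) (hnorm b)
    rw [dist_eq_norm, dist_eq_norm]
    rw [this]
    congr 2
    · congr 1; ring
    · ring
  have hprod : ∀ a b, (2 * (s a * s b)) ^ 2 * ((R v + r a) * (R v + r b)) =
      4 * (r a * r b) := by
    intro a b
    have ha := hr a
    have hb := hr b
    have : (2 * (s a * s b)) ^ 2 = 4 * (s a ^ 2 * s b ^ 2) := by ring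
    rw [this, hs2, hs2]
    field_simp
  have hcons : ∀ i, dist (w i) (w (i + 1)) ≤ 2 * (s i * s (i + 1)) := by
    intro i
    have ha := hr i
    have hb := hr (i + 1)
    have h1 := hchord i (i + 1)
    have h2 : dist (z (P i)) (z (P (i + 1))) = r i + r (i + 1) := by
      have h3 := hP.1 (P i) (Fin.ofNat 6 i + 2)
      have h4 : P i + nb (Fin.ofNat 6 i + 2) = P (i + 1) := by
        rw [hPsucc]
        simp only [P]
        have : ∀ m : Fin 6, nb m + nb (m + 2) = nb (m + 1) := by decide
        rw [add_assoc, this]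
      rw [h4] at h3
      exact h3
    rw [h2] at h1
    have h5 : dist (w i) (w (i + 1)) ^ 2 * ((R v + r i) * (R v + r (i + 1))) =
        (2 * (s i * s (i + 1))) ^ 2 * ((R v + r i) * (R v + r (i + 1))) := by
      rw [h1, hprod]; ring
    have h6 := mul_right_cancel₀ (by positivity) h5
    have h7 := (pow_left_inj₀ dist_nonneg (by have := hs0 i; have := hs0 (i + 1); positivity)
      two_ne_zero).mp h6
    exact h7.le
  have hdist : ∀ a b, a < b → b ≤ a + 5 → 2 * (s a * s b) ≤ dist (w a) (w b) := by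
    intro a b hab hb5
    have ha := hr a
    have hb := hr b
    have hne : P a ≠ P b := by
      intro he
      have h1 : nb (Fin.ofNat 6 a) = nb (Fin.ofNat 6 b) := add_left_cancel he
      have h2 := nb_inj h1
      have h3 := congrArg Fin.val h2
      simp [Fin.ofNat] at h3
      omega
    have hmem : ∀ i, P i ∈ flower v := fun i => Set.mem_insert_of_mem _ ⟨_, rfl⟩
    have hdisj := hU v (hmem a) (hmem b) hne
    have h1 : r a + r b ≤ dist (z (P a)) (z (P b)) := by
      exact (disjoint_ball_ball_iff ha hb).mp hdisj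
    have h2 := hchord a b
    have h3 : (2 * (s a * s b)) ^ 2 * ((R v + r a) * (R v + r b)) ≤
        dist (w a) (w b) ^ 2 * ((R v + r a) * (R v + r b)) := by
      rw [h2, hprod]
      nlinarith
    have h4 := le_of_mul_le_mul_right h3 (by positivity)
    exact (pow_le_pow_iff_left₀ (by have := hs0 a; have := hs0 b; positivity) dist_nonneg
      two_ne_zero).mp h4
  -- two adjacent large petals
  have hlarge : ∃ i : ℕ, i < 6 ∧ 1 / 2 ≤ s i ∧ 1 / 2 ≤ s (i + 1) := by
    have h1 : ∃ m : Fin 6, π / 3 ≤ angleAt (R v) (R (v + nb m)) (R (v + nb (m + 1))) := by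
      by_contra hcon
      push Not at hcon
      have h2 : angleSum R v < ∑ _m : Fin 6, π / 3 := by
        unfold angleSum
        apply sum_lt_sum_of_nonempty
        · exact ⟨0, mem_univ _⟩
        · intro m _; exact hcon m
      rw [hsum v, sum_const, card_univ, Fintype.card_fin, nsmul_eq_mul] at h2
      push_cast at h2
      linarith
    obtain ⟨m, hm⟩ := h1
    refine ⟨m.val, m.isLt, ?_⟩
    have hPm : P m.val = v + nb m := by
      simp only [P]
      congr 2
      ext; simp [Fin.ofNat, Nat.mod_eq_of_lt m.isLt]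
    have hPm1 : P (m.val + 1) = v + nb (m + 1) := by
      rw [hPsucc]
      congr 2
      ext; simp [Fin.ofNat, Nat.mod_eq_of_lt m.isLt]
    rw [← hPm, ← hPm1] at hm
    change π / 3 ≤ angleAt (R v) (r m.val) (r (m.val + 1)) at hm
    have ha := hr m.val
    have hb := hr (m.val + 1)
    set A := r m.val
    set B := r (m.val + 1)
    have hcos : ((R v + A) ^ 2 + (R v + B) ^ 2 - (A + B) ^ 2) / (2 * (R v + A) * (R v + B)) ≤
        1 / 2 := by
      have h3 : cos (angleAt (R v) A B) ≤ cos (π / 3) := by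
        apply cos_le_cos_of_nonneg_of_le_pi (by positivity) (arccos_le_pi _) hm
      rw [cos_pi_div_three] at h3
      unfold angleAt at h3
      rwa [cos_arccos] at h3
      · rw [le_div_iff₀ (by positivity)]
        nlinarith [mul_pos hv ha, mul_pos hv hb, mul_pos ha hb]
      · rw [div_le_one (by positivity)]
        nlinarith [mul_pos hv ha, mul_pos hv hb, mul_pos ha hb]
    rw [div_le_iff₀ (by positivity)] at hcos
    have h4 : 1 / 4 ≤ s m.val ^ 2 * s (m.val + 1) ^ 2 := by
      rw [hs2, hs2, div_mul_div_comm, div_le_div_iff₀ (by positivity) (by positivity)]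
      nlinarith
    have h5 := hs1 m.val
    have h6 := hs1 (m.val + 1)
    have h7 := hs0 m.val
    have h8 := hs0 (m.val + 1)
    constructor
    · by_contra hc
      push Not at hc
      have : s m.val ^ 2 < 1 / 4 := by nlinarith
      nlinarith [sq_nonneg (s (m.val + 1)), pow_lt_one₀ h8.le h6 two_ne_zero]
    · by_contra hc
      push Not at hc
      have : s (m.val + 1) ^ 2 < 1 / 4 := by nlinarith
      nlinarith [sq_nonneg (s m.val), pow_lt_one₀ h7.le h5 two_ne_zero]
  obtain ⟨i, hi6, hi1, hi2⟩ := hlarge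
  have hper : ∀ i, s (i + 6) = s i := by
    intro i
    have : P (i + 6) = P i := by
      simp only [P]
      congr 2
      ext; simp [Fin.ofNat]
    simp only [s, r, this]
  have hall : ∀ c, i + 1 ≤ c → c ≤ i + 6 → FF 4 (1 / 2) ≤ s c := by
    intro c h1 h2
    exact chain s w hs0 hs1 hcons hdist 4 (1 / 2) (by norm_num) (by norm_num) (i + 1) (i + 6)
      (by omega) (by omega) (by omega) hi2 (by rw [hper]; exact hi1) c h1 h2
  have hj : FF 4 (1 / 2) ≤ s j.val := by
    by_cases h : i + 1 ≤ j.val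
    · exact hall j.val h (by have := j.isLt; omega)
    · rw [← hper]
      exact hall (j.val + 6) (by have := j.isLt; omega) (by omega)
  have hPj : P j.val = v + nb j := by
    simp only [P]
    congr 2
    ext; simp [Fin.ofNat, Nat.mod_eq_of_lt j.isLt]
  rw [← hPj]
  change FF 4 (1 / 2) ^ 2 * R v ≤ r j.val
  have h1 := hr j.val
  have h2 : FF 4 (1 / 2) ^ 2 ≤ r j.val / (R v + r j.val) := by
    rw [← hs2]
    exact pow_le_pow_left₀ (FF_pos 4 _ (by norm_num)).le hj 2
  have h3 : r j.val / (R v + r j.val) ≤ r j.val / R v := by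
    apply div_le_div_of_nonneg_left h1.le hv (by linarith)
  have h4 := h2.trans h3
  rwa [le_div_iff₀ hv] at h4

end Run7.h775.Doyle
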